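import Pool.Graph.R_pool_sql_team_seeded_707910d6.T2H31.HV.Fin
import Pool.Graph.R_pool_sql_team_seeded_707910d6.T2H31.HV.T_BV
import Pool.Graph.R_pool_sql_team_seeded_707910d6.T2H31.HV.T_MOM
import Pool.Graph.R_pool_sql_team_seeded_707910d6.T2H31.HV.T_FIN
import Pool.Graph.R_pool_sql_team_seeded_707910d6.T2H31.HV.T_TR
import Pool.Graph.R_pool_sql_team_seeded_707910d6.T2H31.HV.T_FL

set_option autoImplicit false

/-!
# Components of the number of survivors of a sieve by the residues of a periodic sequence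
-/

open Finset MeasureTheory ProbabilityTheory Filter Topology

namespace Pool.Agent.H531.PL

open Pool.Agent.T2H31.HV (Pt Ev Dep PN mem_Pt sum_Pt_insert card_Pt)

/-- residues of a sequence which is periodic modulo every `p ∈ S` and takes no value more than `d` times in a period -/
structure Rs (S : Finset ℕ) (ρ : ℕ → ℕ → ℕ) (d : ℕ) : Prop where
  prime : ∀ p ∈ S, p.Prime
  lt : ∀ p ∈ S, ∀ m, ρ p m < p
  per : ∀ p ∈ S, ∀ m, ρ p (m % p) = ρ p m
  deg : ∀ p ∈ S, ∀ r, ((range p).filter fun m => ρ p m = r).card ≤ d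

/-- the number of the `m` modulo `p` with residue `r` -/
def nu (ρ : ℕ → ℕ → ℕ) (p r : ℕ) : ℕ := ((range p).filter fun m => ρ p m = r).card

noncomputable def DD (ρ : ℕ → ℕ → ℕ) (p m r : ℕ) : ℝ := (if ρ p m = r then 1 else 0) - 1 / p

noncomputable def DB (ρ : ℕ → ℕ → ℕ) (p r : ℕ) : ℝ := ((nu ρ p r : ℝ) - 1) / p

section one

variable {S : Finset ℕ} {ρ : ℕ → ℕ → ℕ} {d : ℕ}

theorem sum_DD (h : Rs S ρ d) {p : ℕ} (hp : p ∈ S) (m : ℕ) : ∑ r ∈ range p, DD ρ p m r = 0 := by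
  unfold DD
  have hp0 : (p : ℝ) ≠ 0 := by exact_mod_cast (h.prime p hp).ne_zero
  rw [sum_sub_distrib, sum_ite_eq (range p) (ρ p m) (fun _ => (1 : ℝ)), if_pos (mem_range.2 (h.lt p hp m)), sum_const,
    card_range, nsmul_eq_mul]
  field_simp
  ring

theorem sum_nu (h : Rs S ρ d) {p : ℕ} (hp : p ∈ S) : ∑ r ∈ range p, (nu ρ p r : ℝ) = p := by
  have h1 : ∑ r ∈ range p, nu ρ p r = (range p).card := by
    unfold nu
    exact (card_eq_sum_card_fiberwise (f := fun m => ρ p m) (fun m _ => by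
      simpa using h.lt p hp m)).symm
  rw [card_range] at h1
  exact_mod_cast h1

theorem sum_DB (h : Rs S ρ d) {p : ℕ} (hp : p ∈ S) : ∑ r ∈ range p, DB ρ p r = 0 := by
  unfold DB
  rw [← sum_div, sum_sub_distrib, sum_nu h hp, sum_const, card_range, nsmul_eq_mul]
  simp

theorem sum_DD_DD (h : Rs S ρ d) {p : ℕ} (hp : p ∈ S) (m m' : ℕ) :
    ∑ r ∈ range p, DD ρ p m r * DD ρ p m' r = (if ρ p m = ρ p m' then 1 else 0) + (-(1 / (p : ℝ))) := by
  have h1 := T2H31.HV.L2.sum_uu p (ρ p m) (ρ p m') (h.prime p hp).pos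
  unfold T2H31.HV.uu at h1
  unfold DD
  simp only [Nat.mod_eq_of_lt (h.lt p hp _)] at h1
  exact h1

theorem sum_DB_sq (h : Rs S ρ d) {p : ℕ} (hp : p ∈ S) : ∑ r ∈ range p, DB ρ p r ^ 2 ≤ d / p := by
  have hp0 : (0 : ℝ) < p := by exact_mod_cast (h.prime p hp).pos
  have h1 : ∑ r ∈ range p, DB ρ p r ^ 2 = (∑ r ∈ range p, (nu ρ p r : ℝ) ^ 2 - p) / p ^ 2 := by
    have : ∀ r, DB ρ p r ^ 2 = ((nu ρ p r : ℝ) ^ 2 - 2 * nu ρ p r + 1) / p ^ 2 := fun r => by
      unfold DB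
      rw [div_pow]
      ring
    simp_rw [this]
    rw [← sum_div, sum_add_distrib, sum_sub_distrib, ← mul_sum, sum_nu h hp, sum_const, card_range, nsmul_eq_mul]
    ring
  rw [h1, div_le_div_iff₀ (by positivity) hp0]
  have h2 : ∑ r ∈ range p, (nu ρ p r : ℝ) ^ 2 ≤ d * p := by
    rw [← sum_nu h hp, mul_sum]
    refine sum_le_sum fun r _ => ?_
    rw [sq]
    have : (nu ρ p r : ℝ) ≤ d := by exact_mod_cast h.deg p hp r
    gcongr
  nlinarith [pow_pos hp0 2]

/-- the Chinese remainder theorem as an exchange of sums and products -/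
theorem crt_sum (s : Finset ℕ) (hs : ∀ p ∈ s, p.Prime) (φ : ℕ → ℕ → ℝ) :
    ∑ m ∈ range (∏ p ∈ s, p), ∏ p ∈ s, φ p (m % p) = ∏ p ∈ s, ∑ r ∈ range p, φ p r := by
  classical
  rw [← T2H31.HV.L2.sum_Pt_prod s φ]
  set e : ℕ → ℕ → ℕ := fun m p => if p ∈ s then m % p else 0 with he
  have hinj : Set.InjOn e (range (∏ p ∈ s, p)) := by
    intro m hm m' hm' hmm
    rw [mem_coe, mem_range] at hm hm'
    have h1 : ∀ p ∈ s, m % p = m' % p := fun p hp => by
      have := congrFun hmm p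
      simpa [he, hp] using this
    have h2 := (T2H31.HV.L2.modEq_prod s hs m m').1 h1
    rw [← Nat.mod_eq_of_lt hm, ← Nat.mod_eq_of_lt hm']
    exact h2
  have himg : (range (∏ p ∈ s, p)).image e = Pt s := by
    apply eq_of_subset_of_card_le
    · intro b hb
      rw [mem_image] at hb
      obtain ⟨m, -, rfl⟩ := hb
      rw [mem_Pt]
      refine ⟨fun p hp => ?_, fun p hp => ?_⟩
      · simp only [he, if_pos hp]
        exact Nat.mod_lt _ (hs p hp).pos
      · simp only [he, if_neg hp]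
    · rw [card_Pt, card_image_of_injOn hinj, card_range]
  rw [← himg, sum_image hinj]
  refine sum_congr rfl fun m _ => prod_congr rfl fun p hp => ?_
  simp only [he, if_pos hp]

/-- partial sums of a periodic function with mean value zero -/
theorem per_sum (Q : ℕ) (hQ : 0 < Q) (g : ℕ → ℝ) (hg : ∀ m, g (m % Q) = g m) (h0 : ∑ m ∈ range Q, g m = 0) (j : ℕ) :
    |∑ m ∈ range j, g m| ≤ ∑ m ∈ range Q, |g m| := by
  have hper : ∀ k m, g (Q * k + m) = g m := by
    intro k m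
    rw [← hg (Q * k + m), Nat.mul_add_mod, hg]
  have h1 : ∀ k, ∑ m ∈ range (Q * k), g m = 0 := by
    intro k
    induction k with
    | zero => simp
    | succ k ih =>
      rw [Nat.mul_succ, sum_range_add, ih, zero_add]
      simp_rw [hper]
      exact h0
  have h2 : j = Q * (j / Q) + j % Q := (Nat.div_add_mod j Q).symm
  rw [h2, sum_range_add, h1, zero_add]
  simp_rw [hper]
  refine (abs_sum_le_sum_abs _ _).trans ?_
  exact sum_le_sum_of_subset_of_nonneg (range_subset_range.2 (Nat.mod_lt _ hQ).le) fun _ _ _ => abs_nonneg _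

/-- partial sums of a nonnegative periodic function -/
theorem per_sum_le (Q : ℕ) (hQ : 0 < Q) (g : ℕ → ℝ) (hg : ∀ m, g (m % Q) = g m) (h0 : ∀ m, 0 ≤ g m) (j : ℕ) :
    ∑ m ∈ range j, g m ≤ ((j : ℝ) / Q + 1) * ∑ m ∈ range Q, g m := by
  have hper : ∀ k m, g (Q * k + m) = g m := by
    intro k m
    rw [← hg (Q * k + m), Nat.mul_add_mod, hg]
  have h1 : ∀ k : ℕ, ∑ m ∈ range (Q * k), g m = k * ∑ m ∈ range Q, g m := by
    intro k
    induction k with
    | zero => simp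
    | succ k ih =>
      rw [Nat.mul_succ, sum_range_add, ih]
      simp_rw [hper]
      push_cast
      ring
  have h2 : j = Q * (j / Q) + j % Q := (Nat.div_add_mod j Q).symm
  have hs : 0 ≤ ∑ m ∈ range Q, g m := sum_nonneg fun m _ => h0 m
  have h3 : ((j / Q : ℕ) : ℝ) ≤ (j : ℝ) / Q := Nat.cast_div_le
  calc ∑ m ∈ range j, g m = ∑ m ∈ range (Q * (j / Q) + j % Q), g m := by rw [← h2]
    _ = (j / Q : ℕ) * ∑ m ∈ range Q, g m + ∑ m ∈ range (j % Q), g m := by
        rw [sum_range_add, h1]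
        simp_rw [hper]
    _ ≤ (j / Q : ℕ) * ∑ m ∈ range Q, g m + ∑ m ∈ range Q, g m := by
        have := sum_le_sum_of_subset_of_nonneg (range_subset_range.2 (Nat.mod_lt j hQ).le) fun m _ _ => h0 m
        linarith
    _ = ((j / Q : ℕ) + 1) * ∑ m ∈ range Q, g m := by ring
    _ ≤ _ := by gcongr

theorem prod_mod (s : Finset ℕ) (φ : ℕ → ℕ → ℝ) (hφ : ∀ p ∈ s, ∀ m, φ p (m % p) = φ p m) (m : ℕ) :
    ∏ p ∈ s, φ p (m % ∏ p ∈ s, p) = ∏ p ∈ s, φ p m := by
  refine prod_congr rfl fun p hp => ?_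
  rw [← hφ p hp (m % ∏ p ∈ s, p), Nat.mod_mod_of_dvd _ (dvd_prod_of_mem (fun q => q) hp), hφ p hp]

theorem DD_per (h : Rs S ρ d) {p : ℕ} (hp : p ∈ S) (m r : ℕ) : DD ρ p (m % p) r = DD ρ p m r := by
  unfold DD
  rw [h.per p hp]

theorem nu_le (h : Rs S ρ d) {p : ℕ} (hp : p ∈ S) (r : ℕ) : (nu ρ p r : ℝ) ≤ d := by
  exact_mod_cast h.deg p hp r

theorem sum_DD_m (h : Rs S ρ d) {p : ℕ} (hp : p ∈ S) (r : ℕ) : ∑ m ∈ range p, DD ρ p m r = p * DB ρ p r := by
  have hp0 : (p : ℝ) ≠ 0 := by exact_mod_cast (h.prime p hp).ne_zero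
  unfold DD DB nu
  rw [sum_sub_distrib, ← sum_filter, sum_const, sum_const, card_range, nsmul_eq_mul, nsmul_eq_mul]
  field_simp

theorem sum_abs_DD_m (h : Rs S ρ d) {p : ℕ} (hp : p ∈ S) (r : ℕ) : ∑ m ∈ range p, |DD ρ p m r| ≤ d + 1 := by
  have hp0 : (0 : ℝ) < p := by exact_mod_cast (h.prime p hp).pos
  calc ∑ m ∈ range p, |DD ρ p m r| ≤ ∑ m ∈ range p, ((if ρ p m = r then (1 : ℝ) else 0) + 1 / p) := by
        refine sum_le_sum fun m _ => ?_
        unfold DD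
        refine (abs_sub _ _).trans ?_
        rw [abs_of_nonneg (show (0 : ℝ) ≤ 1 / p by positivity)]
        gcongr
        split_ifs <;> simp
    _ = nu ρ p r + 1 := by
        unfold nu
        rw [sum_add_distrib, ← sum_filter, sum_const, sum_const, card_range, nsmul_eq_mul, nsmul_eq_mul]
        field_simp
    _ ≤ d + 1 := by
        have := nu_le h hp r
        linarith

theorem abs_DB (h : Rs S ρ d) {p : ℕ} (hp : p ∈ S) (r : ℕ) : (p : ℝ) * |DB ρ p r| ≤ d + 1 := by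
  have hp0 : (0 : ℝ) < p := by exact_mod_cast (h.prime p hp).pos
  unfold DB
  rw [abs_div, abs_of_pos hp0, mul_div_cancel₀ _ hp0.ne']
  have h1 := nu_le h hp r
  have h2 : (0 : ℝ) ≤ nu ρ p r := Nat.cast_nonneg _
  rw [abs_le]
  constructor <;> linarith

/-- the pointwise bound -/
theorem pointwise (h : Rs S ρ d) (s : Finset ℕ) (hs : s ⊆ S) (b : ℕ → ℕ) (j : ℕ) :
    |∑ m ∈ range j, (∏ p ∈ s, DD ρ p m (b p) - ∏ p ∈ s, DB ρ p (b p))| ≤ 2 * ((d : ℝ) + 1) ^ s.card := by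
  have hpr : ∀ p ∈ s, p.Prime := fun p hp => h.prime p (hs hp)
  set Q := ∏ p ∈ s, p with hQ
  have hQ0 : 0 < Q := prod_pos fun p hp => (hpr p hp).pos
  have hQr : (Q : ℝ) = ∏ p ∈ s, (p : ℝ) := by rw [hQ]; push_cast; rfl
  have hm : ∀ m, ∏ p ∈ s, DD ρ p (m % Q) (b p) = ∏ p ∈ s, DD ρ p m (b p) := fun m =>
    prod_mod s (fun p m => DD ρ p m (b p)) (fun p hp m => DD_per h (hs hp) m _) m
  have hcrt : ∑ m ∈ range Q, ∏ p ∈ s, DD ρ p m (b p) = Q * ∏ p ∈ s, DB ρ p (b p) := by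
    have h1 := crt_sum s hpr (fun p m => DD ρ p m (b p))
    rw [hQr, ← prod_mul_distrib]
    calc ∑ m ∈ range Q, ∏ p ∈ s, DD ρ p m (b p) = ∑ m ∈ range Q, ∏ p ∈ s, DD ρ p (m % p) (b p) :=
          sum_congr rfl fun m _ => prod_congr rfl fun p hp => (DD_per h (hs hp) m _).symm
      _ = ∏ p ∈ s, ∑ r ∈ range p, DD ρ p r (b p) := h1
      _ = _ := prod_congr rfl fun p hp => sum_DD_m h (hs hp) _
  refine (per_sum Q hQ0 _ (fun m => by rw [hm]) ?_ j).trans ?_
  · rw [sum_sub_distrib, hcrt, sum_const, card_range, nsmul_eq_mul, sub_self]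
  · calc ∑ m ∈ range Q, |∏ p ∈ s, DD ρ p m (b p) - ∏ p ∈ s, DB ρ p (b p)|
        ≤ ∑ m ∈ range Q, (∏ p ∈ s, |DD ρ p m (b p)| + ∏ p ∈ s, |DB ρ p (b p)|) := by
          refine sum_le_sum fun m _ => ?_
          refine (abs_sub _ _).trans ?_
          rw [abs_prod, abs_prod]
      _ = ∏ p ∈ s, ∑ r ∈ range p, |DD ρ p r (b p)| + ∏ p ∈ s, ((p : ℝ) * |DB ρ p (b p)|) := by
          rw [sum_add_distrib, sum_const, card_range, nsmul_eq_mul, prod_mul_distrib, ← hQr]
          congr 1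
          rw [← crt_sum s hpr (fun p m => |DD ρ p m (b p)|)]
          refine sum_congr rfl fun m _ => prod_congr rfl fun p hp => ?_
          rw [DD_per h (hs hp)]
      _ ≤ ((d : ℝ) + 1) ^ s.card + ((d : ℝ) + 1) ^ s.card := by
          rw [← prod_const]
          exact add_le_add
            (prod_le_prod (fun p _ => sum_nonneg fun _ _ => abs_nonneg _) fun p hp => sum_abs_DD_m h (hs hp) _)
            (prod_le_prod (fun p _ => by positivity) fun p hp => abs_DB h (hs hp) _)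
      _ = 2 * ((d : ℝ) + 1) ^ s.card := by ring

end one

end Pool.Agent.H531.PL
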